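import Pool.Agent.W208.TL.Stm2

/-!
Project TL (helper208): total variation shift invariance of the number of prime factors.
-/

set_option autoImplicit false

namespace Pool.Agent.W177.TL

open Finset Filter Pool.Agent.W208.TL

/-- an abstract form of the sieve law -/
structure Law (s : Finset ℕ) (ν : ℕ → ℝ) : Prop where
  prime : ∀ p ∈ s, Nat.Prime p
  nn : ∀ d, 0 ≤ ν d
  zero : ν 0 = 0
  sum : HasSum ν 1
  shift : ∀ p ∈ s, ∀ d, ν (p * d) = (1 / (p : ℝ)) * ν d

section abs

variable {s : Finset ℕ} {ν : ℕ → ℝ}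

variable {E : Type} [NormedAddCommGroup E] [NormedSpace ℝ E] [CompleteSpace E]

theorem summ (h : Law s ν) {F : ℕ → E} {B : ℝ} (hF : ∀ d, ‖F d‖ ≤ B) :
    Summable (fun d => ν d • F d) := by
  refine Summable.of_norm_bounded (g := fun d => ν d * B) (h.sum.summable.mul_right B) ?_
  intro d
  rw [norm_smul, Real.norm_of_nonneg (h.nn d)]
  exact mul_le_mul_of_nonneg_left (hF d) (h.nn d)

omit [CompleteSpace E] in
theorem shiftE (h : Law s ν) {p : ℕ} (hp : p ∈ s) (F : ℕ → E) :
    ∑' d, ν d • (if p ∣ d then F d else 0) = (1 / (p : ℝ)) • ∑' d, ν d • F (p * d) := by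
  have hp0 : 0 < p := (h.prime p hp).pos
  have hinj : Function.Injective (fun d : ℕ => p * d) := fun a b hab =>
    Nat.eq_of_mul_eq_mul_left hp0 hab
  have hsupp : Function.support (fun d => ν d • (if p ∣ d then F d else 0)) ⊆
      Set.range (fun d : ℕ => p * d) := by
    intro d hd
    rw [Function.mem_support] at hd
    by_cases hpd : p ∣ d
    · obtain ⟨c, rfl⟩ := hpd
      exact ⟨c, rfl⟩
    · rw [if_neg hpd, smul_zero] at hd
      exact absurd rfl hd
  rw [← hinj.tsum_eq hsupp, ← tsum_const_smul'']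
  refine tsum_congr fun d => ?_
  rw [if_pos (dvd_mul_right p d), h.shift p hp d, mul_smul]

/-- number of the primes of `s` dividing `d` -/
def om (s : Finset ℕ) (d : ℕ) : ℝ := ∑ p ∈ s, if p ∣ d then (1 : ℝ) else 0

theorem om_nonneg (s : Finset ℕ) (d : ℕ) : 0 ≤ om s d :=
  Finset.sum_nonneg fun p _ => by split_ifs <;> norm_num

theorem om_le (s : Finset ℕ) (d : ℕ) : om s d ≤ s.card := by
  unfold om
  refine (Finset.sum_le_card_nsmul s _ 1 fun p _ => ?_).trans (by simp)
  split_ifs <;> norm_num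

theorem om_mul (h : Law s ν) {p : ℕ} (hp : p ∈ s) (d : ℕ) : om s (p * d) ≤ om s d + 1 := by
  classical
  unfold om
  rw [← Finset.add_sum_erase s _ hp, ← Finset.add_sum_erase s _ hp]
  have h1 : ∑ q ∈ s.erase p, (if q ∣ p * d then (1 : ℝ) else 0) =
      ∑ q ∈ s.erase p, (if q ∣ d then (1 : ℝ) else 0) := by
    refine Finset.sum_congr rfl fun q hq => ?_
    have hqs := Finset.mem_of_mem_erase hq
    have hqp : q ≠ p := Finset.ne_of_mem_erase hq
    have hcop : Nat.Coprime q p := (Nat.coprime_primes (h.prime q hqs) (h.prime p hp)).mpr hqp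
    have : q ∣ p * d ↔ q ∣ d := hcop.dvd_mul_left
    simp only [this]
  rw [h1, if_pos (dvd_mul_right p d)]
  have h2 : (0 : ℝ) ≤ (if p ∣ d then (1 : ℝ) else 0) := by split_ifs <;> norm_num
  linarith

theorem omE (h : Law s ν) {F : ℕ → E} {B : ℝ} (hF : ∀ d, ‖F d‖ ≤ B) :
    ∑' d, ν d • (om s d • F d) = ∑ p ∈ s, (1 / (p : ℝ)) • ∑' d, ν d • F (p * d) := by
  have hB : 0 ≤ B := (norm_nonneg _).trans (hF 0)
  have h1 : ∀ d, ν d • (om s d • F d) = ∑ p ∈ s, ν d • (if p ∣ d then F d else 0) := by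
    intro d
    rw [om, Finset.sum_smul, Finset.smul_sum]
    refine Finset.sum_congr rfl fun p _ => ?_
    split_ifs
    · rw [one_smul]
    · rw [zero_smul]
  rw [tsum_congr h1, Summable.tsum_finsetSum]
  · exact Finset.sum_congr rfl fun p hp => shiftE h hp F
  · intro p _
    refine summ h (B := B) fun d => ?_
    split_ifs
    · exact hF d
    · rw [norm_zero]; exact hB

/-- sum of the reciprocals -/
noncomputable def SS (s : Finset ℕ) : ℝ := ∑ p ∈ s, 1 / (p : ℝ)

theorem SS_nonneg (s : Finset ℕ) : 0 ≤ SS s := Finset.sum_nonneg fun p _ => by positivity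

theorem E_one (h : Law s ν) : ∑' d, ν d • (1 : ℝ) = 1 := by
  simp only [smul_eq_mul, mul_one]
  exact h.sum.tsum_eq

theorem E_om (h : Law s ν) : ∑' d, ν d • om s d = SS s := by
  have h1 := omE h (F := fun _ => (1 : ℝ)) (B := 1) (fun d => by simp)
  simp only [smul_eq_mul, mul_one] at h1
  simp only [smul_eq_mul]
  rw [h1, h.sum.tsum_eq]
  simp only [mul_one]
  rfl

theorem om_norm (s : Finset ℕ) (d : ℕ) : ‖om s d‖ ≤ s.card := by
  rw [Real.norm_of_nonneg (om_nonneg s d)]
  exact om_le s d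

theorem E_om2 (h : Law s ν) : ∑' d, ν d • (om s d • om s d) ≤ SS s * (SS s + 1) := by
  rw [omE h (F := om s) (B := s.card) (om_norm s)]
  have h1 : ∀ p ∈ s, (1 / (p : ℝ)) • ∑' d, ν d • om s (p * d) ≤ (1 / (p : ℝ)) * (SS s + 1) := by
    intro p hp
    rw [smul_eq_mul]
    refine mul_le_mul_of_nonneg_left ?_ (by positivity)
    have h2 : ∑' d, ν d • om s (p * d) ≤ ∑' d, ν d • (om s d + 1) := by
      refine Summable.tsum_le_tsum (fun d => ?_) ?_ ?_
      · rw [smul_eq_mul, smul_eq_mul]
        exact mul_le_mul_of_nonneg_left (om_mul h hp d) (h.nn d)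
      · exact summ h (B := s.card) (fun d => om_norm s _)
      · refine summ h (B := s.card + 1) fun d => ?_
        refine (norm_add_le _ _).trans ?_
        rw [norm_one]
        linarith [om_norm s d]
    refine h2.trans (le_of_eq ?_)
    have h3 : ∀ d, ν d • (om s d + 1) = ν d • om s d + ν d • (1 : ℝ) := fun d => smul_add _ _ _
    rw [tsum_congr h3, Summable.tsum_add (summ h (om_norm s)) (summ h (B := 1) fun _ => by simp),
      E_om h, E_one h]
  refine (Finset.sum_le_sum h1).trans (le_of_eq ?_)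
  rw [← Finset.sum_mul]
  rfl

theorem E_var (h : Law s ν) : ∑' d, ν d • (om s d - SS s) ^ 2 ≤ SS s := by
  have h1 : ∀ d, ν d • (om s d - SS s) ^ 2 =
      ν d • (om s d • om s d) + (-2 * SS s) • (ν d • om s d) + (SS s ^ 2) • (ν d • (1 : ℝ)) := by
    intro d
    simp only [smul_eq_mul]
    ring
  have s1 : Summable (fun d => ν d • (om s d • om s d)) := by
    refine summ h (B := s.card * s.card) fun d => ?_
    rw [norm_smul]
    exact mul_le_mul (om_norm s d) (om_norm s d) (norm_nonneg _) (by positivity)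
  have s2 : Summable (fun d => (-2 * SS s) • (ν d • om s d)) :=
    (summ h (om_norm s)).const_smul _
  have s3 : Summable (fun d => (SS s ^ 2) • (ν d • (1 : ℝ))) :=
    (summ h (B := 1) fun _ => by simp).const_smul _
  rw [tsum_congr h1, (s1.add s2).tsum_add s3, s1.tsum_add s2, tsum_const_smul'',
    tsum_const_smul'', E_om h, E_one h]
  have := E_om2 h
  simp only [smul_eq_mul] at this ⊢
  linarith

theorem E_abs (h : Law s ν) (hS : 0 < SS s) : ∑' d, ν d • |om s d - SS s| ≤ √(SS s) := by
  have hq : 0 < √(SS s) := Real.sqrt_pos.mpr hS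
  have hqq : √(SS s) * √(SS s) = SS s := Real.mul_self_sqrt hS.le
  have b1 : ∀ d, |om s d - SS s| ≤ s.card + SS s := by
    intro d
    refine (abs_sub _ _).trans ?_
    rw [abs_of_nonneg (om_nonneg s d), abs_of_nonneg hS.le]
    linarith [om_le s d]
  have h1 : ∀ d, ν d • |om s d - SS s| ≤
      (1 / (2 * √(SS s))) • (ν d • (om s d - SS s) ^ 2) + (√(SS s) / 2) • (ν d • (1 : ℝ)) := by
    intro d
    simp only [smul_eq_mul]
    have h2 : |om s d - SS s| ≤ (1 / (2 * √(SS s))) * (om s d - SS s) ^ 2 + √(SS s) / 2 := by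
      rw [← sq_abs (om s d - SS s)]
      set t := |om s d - SS s|
      set q := √(SS s)
      have h3 : 0 ≤ (1 / (2 * q)) * (t - q) ^ 2 := by positivity
      have h4 : (1 / (2 * q)) * (t - q) ^ 2 = (1 / (2 * q)) * t ^ 2 + q / 2 - t := by
        field_simp
        ring
      linarith
    have h5 := mul_le_mul_of_nonneg_left h2 (h.nn d)
    refine h5.trans (le_of_eq ?_)
    ring
  have s1 : Summable (fun d => ν d • (om s d - SS s) ^ 2) := by
    refine summ h (B := (s.card + SS s) ^ 2) fun d => ?_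
    rw [Real.norm_of_nonneg (sq_nonneg _), ← sq_abs]
    exact pow_le_pow_left₀ (abs_nonneg _) (b1 d) 2
  have s2 : Summable (fun d => ν d • (1 : ℝ)) := summ h (B := 1) fun _ => by simp
  have s3 : Summable (fun d => ν d • |om s d - SS s|) := by
    refine summ h (B := s.card + SS s) fun d => ?_
    rw [Real.norm_of_nonneg (abs_nonneg _)]
    exact b1 d
  refine (s3.tsum_le_tsum h1 ((s1.const_smul _).add (s2.const_smul _))).trans ?_
  rw [(s1.const_smul _).tsum_add (s2.const_smul _), tsum_const_smul'', tsum_const_smul'', E_one h]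
  have h6 := mul_le_mul_of_nonneg_left (E_var h) (show 0 ≤ 1 / (2 * √(SS s)) by positivity)
  simp only [smul_eq_mul] at h6 ⊢
  have h7 : 1 / (2 * √(SS s)) * SS s = √(SS s) / 2 := by
    rw [div_mul_eq_mul_div, one_mul, div_eq_div_iff (by positivity) (by norm_num)]
    rw [show √(SS s) * (2 * √(SS s)) = 2 * (√(SS s) * √(SS s)) by ring, hqq]
    ring
  rw [h7] at h6
  linarith

theorem step (h : Law s ν) (hS : 0 < SS s) (g : ℕ → ℂ) (hg : ∀ l, ‖g l‖ ≤ 1) (i : ℕ) :
    ‖∑' d, ν d • g (ArithmeticFunction.cardFactors d + (i + 1)) -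
      ∑' d, ν d • g (ArithmeticFunction.cardFactors d + i)‖ ≤ 1 / √(SS s) := by
  have hq : 0 < √(SS s) := Real.sqrt_pos.mpr hS
  have hqq : √(SS s) * √(SS s) = SS s := Real.mul_self_sqrt hS.le
  set F : ℕ → ℂ := fun d => g (ArithmeticFunction.cardFactors d + i) with hF
  have hFb : ∀ d, ‖F d‖ ≤ 1 := fun d => hg _
  have h1 := omE h (F := F) (B := 1) hFb
  have h2 : ∀ p ∈ s, ∑' d, ν d • F (p * d) =
      ∑' d, ν d • g (ArithmeticFunction.cardFactors d + (i + 1)) := by
    intro p hp
    refine tsum_congr fun d => ?_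
    rcases Nat.eq_zero_or_pos d with hd | hd
    · rw [hd, h.zero, zero_smul, zero_smul]
    · have hpp := h.prime p hp
      have h3 : ArithmeticFunction.cardFactors (p * d) =
          ArithmeticFunction.cardFactors d + 1 := by
        rw [ArithmeticFunction.cardFactors_mul hpp.ne_zero hd.ne',
          ArithmeticFunction.cardFactors_apply_prime hpp]
        ring
      change ν d • g (ArithmeticFunction.cardFactors (p * d) + i) = _
      rw [h3]
      congr 2
      ring
  rw [Finset.sum_congr rfl (fun p hp => by rw [h2 p hp]), ← Finset.sum_smul] at h1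
  change _ = SS s • _ at h1
  set A := ∑' d, ν d • g (ArithmeticFunction.cardFactors d + (i + 1))
  set B := ∑' d, ν d • F d with hB
  have s1 : Summable (fun d => ν d • (om s d • F d)) := by
    refine summ h (B := s.card * 1) fun d => ?_
    rw [norm_smul]
    exact mul_le_mul (om_norm s d) (hFb d) (norm_nonneg _) (by positivity)
  have s2 : Summable (fun d => ν d • F d) := summ h hFb
  have h4 : SS s • (A - B) = ∑' d, ν d • ((om s d - SS s) • F d) := by
    rw [smul_sub, ← h1, hB, ← tsum_const_smul'', ← s1.tsum_sub (s2.const_smul _)]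
    refine tsum_congr fun d => ?_
    rw [sub_smul, smul_sub, smul_comm (SS s) (ν d)]
  have b1 : ∀ d, |om s d - SS s| ≤ s.card + SS s := by
    intro d
    refine (abs_sub _ _).trans ?_
    rw [abs_of_nonneg (om_nonneg s d), abs_of_nonneg hS.le]
    linarith [om_le s d]
  have s3 : Summable (fun d => ν d • |om s d - SS s|) := by
    refine summ h (B := s.card + SS s) fun d => ?_
    rw [Real.norm_of_nonneg (abs_nonneg _)]
    exact b1 d
  have h5 : ‖∑' d, ν d • ((om s d - SS s) • F d)‖ ≤ ∑' d, ν d • |om s d - SS s| := by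
    refine tsum_of_norm_bounded s3.hasSum fun d => ?_
    rw [norm_smul, norm_smul, Real.norm_of_nonneg (h.nn d), Real.norm_eq_abs, smul_eq_mul]
    refine mul_le_mul_of_nonneg_left ?_ (h.nn d)
    calc |om s d - SS s| * ‖F d‖ ≤ |om s d - SS s| * 1 :=
          mul_le_mul_of_nonneg_left (hFb d) (abs_nonneg _)
      _ = _ := mul_one _
  have h6 : SS s * ‖A - B‖ ≤ √(SS s) := by
    have h7 := h5.trans (E_abs h hS)
    rw [← h4, norm_smul, Real.norm_of_nonneg hS.le] at h7
    exact h7
  rw [le_div_iff₀ hq]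
  have h8 : (‖A - B‖ * √(SS s)) * √(SS s) ≤ 1 * √(SS s) := by
    rw [mul_assoc, hqq, one_mul, mul_comm]
    exact h6
  exact le_of_mul_le_mul_right h8 hq

theorem steps (h : Law s ν) (hS : 0 < SS s) (g : ℕ → ℂ) (hg : ∀ l, ‖g l‖ ≤ 1) (l : ℕ) :
    ‖∑' d, ν d • g (ArithmeticFunction.cardFactors d + l) -
      ∑' d, ν d • g (ArithmeticFunction.cardFactors d)‖ ≤ l * (1 / √(SS s)) := by
  induction l with
  | zero => simp
  | succ l ih =>
    have h1 := step h hS g hg l
    have h2 := norm_add_le (∑' d, ν d • g (ArithmeticFunction.cardFactors d + (l + 1)) -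
      ∑' d, ν d • g (ArithmeticFunction.cardFactors d + l))
      (∑' d, ν d • g (ArithmeticFunction.cardFactors d + l) -
      ∑' d, ν d • g (ArithmeticFunction.cardFactors d))
    rw [sub_add_sub_cancel] at h2
    push_cast
    linarith

theorem trunc (h : Law s ν) (T : Finset ℕ) (F : ℕ → ℂ) (hF : ∀ d, ‖F d‖ ≤ 1) :
    ‖∑' d, ν d • F d - ∑ d ∈ T, ν d • F d‖ ≤ 1 - ∑ d ∈ T, ν d := by
  have s1 : Summable (fun d => ν d • F d) := summ h hF
  have h1 := s1.sum_add_tsum_subtype_compl T
  have h2 := h.sum.summable.sum_add_tsum_subtype_compl T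
  rw [h.sum.tsum_eq] at h2
  have h3 : ∑' d, ν d • F d - ∑ d ∈ T, ν d • F d = ∑' x : {x // x ∉ T}, ν x • F x := by
    rw [← h1]; ring
  rw [h3]
  have h4 : ‖∑' x : {x // x ∉ T}, ν x • F x‖ ≤ ∑' x : {x // x ∉ T}, ν x := by
    refine tsum_of_norm_bounded (h.sum.summable.subtype _).hasSum fun d => ?_
    rw [norm_smul, Real.norm_of_nonneg (h.nn _)]
    calc ν d * ‖F d‖ ≤ ν d * 1 := mul_le_mul_of_nonneg_left (hF _) (h.nn _)
      _ = _ := mul_one _
  linarith

end abs

theorem PP_prime {w y p : ℕ} (hp : p ∈ PP w y) : p.Prime := (Finset.mem_filter.mp hp).2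

theorem sm_iff (w y : ℕ) {d : ℕ} (hd : d ≠ 0) :
    sm w y d = d ↔ d ∈ Nat.factoredNumbers (PP w y) := by
  rw [Nat.mem_factoredNumbers_iff_primeFactors_subset]
  constructor
  · intro h
    refine ⟨hd, ?_⟩
    intro p hp
    have hpp : p.Prime := Nat.prime_of_mem_primeFactors hp
    have hpd : p ∣ sm w y d := by rw [h]; exact Nat.dvd_of_mem_primeFactors hp
    unfold sm at hpd
    rw [Prime.dvd_finsetProd_iff hpp.prime] at hpd
    obtain ⟨l, hl, hpl⟩ := hpd
    have h2 : p ∣ l := hpp.dvd_of_dvd_pow hpl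
    rw [(Nat.prime_dvd_prime_iff_eq hpp (PP_prime hl)).mp h2]
    exact hl
  · rintro ⟨-, h⟩
    unfold sm
    conv_rhs => rw [← Nat.prod_factorization_pow_eq_self hd]
    rw [Finsupp.prod, Nat.support_factorization]
    symm
    refine Finset.prod_subset h fun l _ hl => ?_
    rw [← Nat.support_factorization, Finsupp.notMem_support_iff] at hl
    rw [hl, pow_zero]

theorem V_factor {p : ℕ} (hp : p.Prime) : 0 < 1 - 1 / (p : ℝ) := by
  have h2 : (2 : ℝ) ≤ (p : ℝ) := by exact_mod_cast hp.two_le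
  rw [sub_pos, div_lt_one (by linarith)]
  linarith

/-- the reciprocal as a homomorphism -/
noncomputable def recHom : ℕ →* ℝ where
  toFun n := (n : ℝ)⁻¹
  map_one' := by simp
  map_mul' := by intro a b; push_cast; rw [mul_inv]

theorem mu_law (w y : ℕ) : Law (PP w y) (mu w y) := by
  have hV : 0 < ∏ l ∈ PP w y, (1 - 1 / (l : ℝ)) :=
    Finset.prod_pos fun l hl => V_factor (PP_prime hl)
  have hz : mu w y 0 = 0 := by
    unfold mu
    rw [if_neg]
    unfold sm
    simp
  refine ⟨fun p hp => PP_prime hp, ?_, hz, ?_, ?_⟩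
  · intro d
    unfold mu
    split_ifs
    · positivity
    · exact le_rfl
  · have h1 := (EulerProduct.summable_and_hasSum_factoredNumbers_prod_filter_prime_geometric
      (f := recHom) (by
        intro p hp
        change ‖(p : ℝ)⁻¹‖ < 1
        have h2 : (2 : ℝ) ≤ (p : ℝ) := by exact_mod_cast hp.two_le
        rw [Real.norm_of_nonneg (by positivity)]
        exact inv_lt_one_of_one_lt₀ (by linarith)) (PP w y)).2
    have h2 : (PP w y).filter Nat.Prime = PP w y :=
      Finset.filter_true_of_mem fun p hp => PP_prime hp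
    rw [h2] at h1
    have h3 := h1.mul_left (∏ l ∈ PP w y, (1 - 1 / (l : ℝ)))
    rw [← Finset.prod_mul_distrib] at h3
    have h4 : ∏ l ∈ PP w y, ((1 - 1 / (l : ℝ)) * (1 - recHom l)⁻¹) = 1 := by
      refine Finset.prod_eq_one fun l hl => ?_
      have h5 : recHom l = 1 / (l : ℝ) := by
        change (l : ℝ)⁻¹ = _
        rw [one_div]
      rw [h5]
      exact mul_inv_cancel₀ (V_factor (PP_prime hl)).ne'
    rw [h4] at h3
    have h6 := (hasSum_subtype_iff_indicator
      (f := fun d : ℕ => (∏ l ∈ PP w y, (1 - 1 / (l : ℝ))) * recHom d)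
      (s := Nat.factoredNumbers (PP w y))).mp h3
    have h7 : (Nat.factoredNumbers (PP w y)).indicator
        (fun d : ℕ => (∏ l ∈ PP w y, (1 - 1 / (l : ℝ))) * recHom d) = mu w y := by
      funext d
      rcases Nat.eq_zero_or_pos d with hd | hd
      · rw [hd, hz, Set.indicator_of_notMem]
        exact fun h => Nat.ne_zero_of_mem_factoredNumbers h rfl
      · unfold mu
        by_cases hd2 : d ∈ Nat.factoredNumbers (PP w y)
        · rw [Set.indicator_of_mem hd2, if_pos ((sm_iff w y hd.ne').mpr hd2)]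
          rfl
        · rw [Set.indicator_of_notMem hd2, if_neg (fun h => hd2 ((sm_iff w y hd.ne').mp h))]
    rw [h7] at h6
    exact h6
  · intro p hp d
    rcases Nat.eq_zero_or_pos d with hd | hd
    · rw [hd, mul_zero, hz, mul_zero]
    · have hpp := PP_prime hp
      have hpd : p * d ≠ 0 := Nat.mul_ne_zero hpp.ne_zero hd.ne'
      have h1 : sm w y (p * d) = p * d ↔ sm w y d = d := by
        rw [sm_iff w y hpd, sm_iff w y hd.ne', Nat.mem_factoredNumbers_iff_primeFactors_subset,
          Nat.mem_factoredNumbers_iff_primeFactors_subset, Nat.primeFactors_mul hpp.ne_zero hd.ne',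
          hpp.primeFactors, Finset.union_subset_iff, Finset.singleton_subset_iff]
        constructor
        · rintro ⟨_, _, h⟩
          exact ⟨hd.ne', h⟩
        · rintro ⟨_, h⟩
          exact ⟨hpd, hp, h⟩
      unfold mu
      by_cases h2 : sm w y d = d
      · rw [if_pos h2, if_pos (h1.mpr h2)]
        push_cast
        have h3 : (p : ℝ) ≠ 0 := by exact_mod_cast hpp.ne_zero
        have h4 : (d : ℝ) ≠ 0 := by exact_mod_cast hd.ne'
        field_simp
      · rw [if_neg h2, if_neg (fun h => h2 (h1.mp h)), mul_zero]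

/-- divergence of the sum of the reciprocals of the primes above `w` -/
theorem SS_large (w : ℕ) (T : ℝ) : ∃ y0 : ℕ, ∀ y : ℕ, y0 ≤ y → T ≤ SS (PP w y) := by
  have h1 := (not_summable_iff_tendsto_nat_atTop_of_nonneg
    (f := Set.indicator {p | Nat.Prime p} (fun n : ℕ => 1 / (n : ℝ)))
    (fun n => Set.indicator_nonneg (fun _ _ => by positivity) n)).mp not_summable_one_div_on_primes
  set f : ℕ → ℝ := Set.indicator {p | Nat.Prime p} (fun n : ℕ => 1 / (n : ℝ)) with hf
  have hf0 : ∀ n, 0 ≤ f n := fun n => Set.indicator_nonneg (fun _ _ => by positivity) n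
  obtain ⟨y1, hy1⟩ := (h1.eventually (eventually_ge_atTop
    (T + ∑ i ∈ Finset.range (w + 1), f i))).exists_forall_of_atTop
  refine ⟨max y1 w, fun y hy => ?_⟩
  have h2 := hy1 (y + 1) (by have := le_of_max_le_left hy; omega)
  have hwy : w ≤ y := le_of_max_le_right hy
  have h3 : ∑ i ∈ Finset.range (y + 1), f i = ∑ i ∈ Finset.range (w + 1), f i +
      ∑ i ∈ Finset.Ico (w + 1) (y + 1), f i :=
    (Finset.sum_range_add_sum_Ico _ (by omega)).symm
  have h4 : ∑ i ∈ Finset.Ico (w + 1) (y + 1), f i = SS (PP w y) := by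
    unfold SS PP
    rw [Finset.sum_filter]
    have h5 : Finset.Ico (w + 1) (y + 1) = Finset.Ioc w y := by
      ext i
      rw [Finset.mem_Ico, Finset.mem_Ioc]
      omega
    rw [h5]
    refine Finset.sum_congr rfl fun i _ => ?_
    rw [hf, Set.indicator_apply]
    rfl
  linarith

theorem si : SI := by
  intro w L η hη
  obtain ⟨y0, hy0⟩ := SS_large w (((L : ℝ) / η) ^ 2 + 1)
  refine ⟨y0, ?_⟩
  intro y Z hy ε hε g hg l hl
  have hlaw := mu_law w y
  have hS1 := hy0 y hy
  have hS : 0 < SS (PP w y) := lt_of_lt_of_le (by positivity) hS1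
  have h1 := steps hlaw hS g hg l
  have h2 := trunc hlaw (Finset.Icc 1 Z)
    (fun d => g (ArithmeticFunction.cardFactors d + l)) (fun d => hg _)
  have h3 := trunc hlaw (Finset.Icc 1 Z)
    (fun d => g (ArithmeticFunction.cardFactors d)) (fun d => hg _)
  have h4 : 1 - ∑ d ∈ Icc 1 Z, mu w y d ≤ ε := by
    have := (abs_le.mp hε).1
    linarith
  have h5 : (l : ℝ) * (1 / √(SS (PP w y))) ≤ η := by
    have hsq : (L : ℝ) / η ≤ √(SS (PP w y)) := by
      refine Real.le_sqrt_of_sq_le ?_
      linarith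
    have hpos : 0 < √(SS (PP w y)) := Real.sqrt_pos.mpr hS
    rw [mul_one_div, div_le_iff₀ hpos]
    have h6 : (l : ℝ) ≤ L := by exact_mod_cast hl
    have h7 := (div_le_iff₀ hη).mp hsq
    linarith
  have e1 : ∀ (F : ℕ → ℂ), ∑ d ∈ Icc 1 Z, F d * (mu w y d : ℂ) =
      ∑ d ∈ Icc 1 Z, mu w y d • F d := by
    intro F
    refine Finset.sum_congr rfl fun d _ => ?_
    rw [Complex.real_smul, mul_comm]
  rw [e1 (fun d => g (ArithmeticFunction.cardFactors d + l)),
    e1 (fun d => g (ArithmeticFunction.cardFactors d))]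
  set A := ∑' d, mu w y d • g (ArithmeticFunction.cardFactors d + l)
  set B := ∑' d, mu w y d • g (ArithmeticFunction.cardFactors d)
  set a := ∑ d ∈ Icc 1 Z, mu w y d • g (ArithmeticFunction.cardFactors d + l)
  set b := ∑ d ∈ Icc 1 Z, mu w y d • g (ArithmeticFunction.cardFactors d)
  have h8 : a - b = (A - B) - (A - a) + (B - b) := by ring
  rw [h8]
  have h9 := norm_add_le ((A - B) - (A - a)) (B - b)
  have h10 := norm_sub_le (A - B) (A - a)
  linarith

end Pool.Agent.W177.TL
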